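import Mathlib

/-!
Rational quadratic spaces of signature `(2, k)`, `k ≤ 3`, embed in `U ⊕ U ⊕ U ⊕ ⟨-a⟩`, and rational
quadratic spaces of signature `(2, k)`, `k ≥ 3`, are isotropic (Meyer).
-/

set_option autoImplicit false

namespace Pool.Agent.TH487.Emb

/-- The symmetric bilinear form of the quadratic space `U ⊕ U ⊕ U ⊕ ⟨-a⟩` on `ℚ ^ 7`, with `U` the
hyperbolic plane. -/
def target (a : ℚ) : LinearMap.BilinForm ℚ (Fin 7 → ℚ) :=
  LinearMap.mk₂ ℚ (fun x y => x 0 * y 1 + x 1 * y 0 + (x 2 * y 3 + x 3 * y 2) +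
      (x 4 * y 5 + x 5 * y 4) - a * x 6 * y 6)
    (fun x x' y => by simp only [Pi.add_apply]; ring)
    (fun c x y => by simp only [Pi.smul_apply, smul_eq_mul]; ring)
    (fun x y y' => by simp only [Pi.add_apply]; ring)
    (fun c x y => by simp only [Pi.smul_apply, smul_eq_mul]; ring)

/-- The quadratic space `(T, B)` embeds isometrically in `U ⊕ U ⊕ U ⊕ ⟨-a⟩`. -/
def EmbedsIn {T : Type} [AddCommGroup T] [Module ℚ T] (B : LinearMap.BilinForm ℚ T) (a : ℚ) :
    Prop :=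
  ∃ φ : T →ₗ[ℚ] (Fin 7 → ℚ), Function.Injective φ ∧ ∀ x y, target a (φ x) (φ y) = B x y

/-- The quadratic space `(T, B)` has dimension `m` and signature `(2, m - 2)`: in some orthogonal
basis the first two vectors have positive, the other ones negative square. -/
def HasSignature {T : Type} [AddCommGroup T] [Module ℚ T] (B : LinearMap.BilinForm ℚ T) (m : ℕ) :
    Prop :=
  2 ≤ m ∧ ∃ b : Module.Basis (Fin m) ℚ T, (∀ i j, i ≠ j → B (b i) (b j) = 0) ∧
    ∀ i : Fin m, if (i : ℕ) < 2 then 0 < B (b i) (b i) else B (b i) (b i) < 0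

/-- Meyer's theorem: an indefinite diagonal rational quadratic form in five variables has a
nontrivial zero. -/
def Meyer : Prop :=
  ∀ a : Fin 5 → ℚ, (∀ i, a i ≠ 0) → (∃ i, 0 < a i) → (∃ i, a i < 0) →
    ∃ x : Fin 5 → ℚ, x ≠ 0 ∧ ∑ i, a i * x i ^ 2 = 0

section algebra

variable {T : Type} [AddCommGroup T] [Module ℚ T]

theorem target_apply (a : ℚ) (x y : Fin 7 → ℚ) : target a x y =
    x 0 * y 1 + x 1 * y 0 + (x 2 * y 3 + x 3 * y 2) + (x 4 * y 5 + x 5 * y 4) - a * x 6 * y 6 :=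
  rfl

theorem embed_of_basis {m : ℕ} (B : LinearMap.BilinForm ℚ T) (a : ℚ)
    (v : Module.Basis (Fin m) ℚ T) (hn : ∀ i, B (v i) (v i) ≠ 0) (u : Fin m → Fin 7 → ℚ)
    (ho : ∀ i j, i ≠ j → B (v i) (v j) = 0)
    (hu : ∀ i j, i ≠ j → target a (u i) (u j) = 0)
    (huu : ∀ i, target a (u i) (u i) = B (v i) (v i)) : EmbedsIn B a := by
  have key : ((target a).comp (v.constr ℚ u) (v.constr ℚ u)) = B := by
    refine LinearMap.BilinForm.ext_basis v (fun i j => ?_)
    rw [LinearMap.BilinForm.comp_apply, v.constr_basis, v.constr_basis]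
    by_cases h : i = j
    · subst h; exact huu i
    · rw [hu i j h, ho i j h]
  have hiso : ∀ x y, target a (v.constr ℚ u x) (v.constr ℚ u y) = B x y := by
    intro x y
    rw [← key]; rfl
  refine ⟨v.constr ℚ u, ?_, hiso⟩
  rw [← LinearMap.ker_eq_bot, LinearMap.ker_eq_bot']
  intro x hx
  have h0 : ∀ y, B x y = 0 := by
    intro y
    rw [← hiso, hx]; simp
  -- coordinates vanish
  have h1 : ∀ j, v.repr x j = 0 := by
    intro j
    have h2 := h0 (v j)
    have h3 : B x (v j) = v.repr x j * B (v j) (v j) := by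
      conv_lhs => rw [← v.sum_repr x]
      rw [map_sum, LinearMap.sum_apply, Finset.sum_eq_single j]
      · simp
      · intro i _ hij
        simp [ho i j hij]
      · intro h; exact absurd (Finset.mem_univ j) h
    rw [h3] at h2
    exact (mul_eq_zero.1 h2).resolve_right (hn j)
  rw [← v.sum_repr x]
  simp [h1]

/-- An orthogonal completion in a positive definite diagonal ternary space. -/
theorem complete (e : Fin 3 → ℚ) (he : ∀ i, 0 < e i) (x : Fin 3 → ℚ) :
    ∃ w₁ w₂ : Fin 3 → ℚ, w₁ ≠ 0 ∧ w₂ ≠ 0 ∧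
      e 0 * x 0 * w₁ 0 + e 1 * x 1 * w₁ 1 + e 2 * x 2 * w₁ 2 = 0 ∧
      e 0 * x 0 * w₂ 0 + e 1 * x 1 * w₂ 1 + e 2 * x 2 * w₂ 2 = 0 ∧
      e 0 * w₁ 0 * w₂ 0 + e 1 * w₁ 1 * w₂ 1 + e 2 * w₁ 2 * w₂ 2 = 0 := by
  have h0 := he 0
  have h1 := he 1
  by_cases h : x 0 = 0 ∧ x 1 = 0
  · refine ⟨![1, 0, 0], ![0, 1, 0], ?_, ?_, ?_, ?_, ?_⟩
    · intro hh; simpa using congrFun hh 0
    · intro hh; simpa using congrFun hh 1
    · simp [h.1]
    · simp [h.2]
    · simp
  · refine ⟨![-(e 1 * x 1), e 0 * x 0, 0],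
      ![-(e 2 * x 0 * x 2), -(e 2 * x 1 * x 2), e 0 * x 0 ^ 2 + e 1 * x 1 ^ 2], ?_, ?_, ?_, ?_, ?_⟩
    · intro hh
      apply h
      have h2 := congrFun hh 0
      have h3 := congrFun hh 1
      simp only [Matrix.cons_val_zero, Matrix.cons_val_one, Pi.zero_apply, neg_eq_zero,
        mul_eq_zero] at h2 h3
      exact ⟨h3.resolve_left h0.ne', h2.resolve_left h1.ne'⟩
    · intro hh
      apply h
      have h2 := congrFun hh 2
      simp only [Matrix.cons_val, Pi.zero_apply] at h2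
      constructor
      · by_contra h3
        have : 0 < e 0 * x 0 ^ 2 := mul_pos h0 (by positivity)
        have h4 : 0 ≤ e 1 * x 1 ^ 2 := by positivity
        linarith
      · by_contra h3
        have : 0 < e 1 * x 1 ^ 2 := mul_pos h1 (by positivity)
        have h4 : 0 ≤ e 0 * x 0 ^ 2 := by positivity
        linarith
    · simp only [Matrix.cons_val_zero, Matrix.cons_val_one, Matrix.cons_val]; ring
    · simp only [Matrix.cons_val_zero, Matrix.cons_val_one, Matrix.cons_val]; ring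
    · simp only [Matrix.cons_val_zero, Matrix.cons_val_one, Matrix.cons_val]; ring

/-- The vector with the given coordinates in the basis. -/
noncomputable def vec (b : Module.Basis (Fin 5) ℚ T) (c : Fin 5 → ℚ) : T := ∑ i, c i • b i

theorem form_vec (B : LinearMap.BilinForm ℚ T) (b : Module.Basis (Fin 5) ℚ T)
    (ho : ∀ i j, i ≠ j → B (b i) (b j) = 0) (c d : Fin 5 → ℚ) :
    B (vec b c) (vec b d) = ∑ i, B (b i) (b i) * (c i * d i) := by
  unfold vec
  rw [map_sum]
  refine Finset.sum_congr rfl fun i _ => ?_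
  rw [map_sum, LinearMap.sum_apply, Finset.sum_eq_single i]
  · simp only [map_smul, LinearMap.smul_apply, smul_eq_mul]; ring
  · intro j _ hij
    simp [ho j i hij]
  · intro h; exact absurd (Finset.mem_univ i) h

theorem embed_five (hM : Meyer) (B : LinearMap.BilinForm ℚ T) (b : Module.Basis (Fin 5) ℚ T)
    (ho : ∀ i j, i ≠ j → B (b i) (b j) = 0)
    (hp : ∀ i : Fin 5, if (i : ℕ) < 2 then 0 < B (b i) (b i) else B (b i) (b i) < 0) :
    ∃ a : ℚ, 0 < a ∧ EmbedsIn B a := by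
  set n : Fin 5 → ℚ := fun i => B (b i) (b i) with hn
  have n0 : 0 < n 0 := by simpa using hp 0
  have n1 : 0 < n 1 := by simpa using hp 1
  have n2 : n 2 < 0 := by simpa using hp 2
  have n3 : n 3 < 0 := by simpa using hp 3
  have n4 : n 4 < 0 := by simpa using hp 4
  obtain ⟨x, hx0, hx⟩ := hM n (by
    intro i; fin_cases i
    · exact n0.ne'
    · exact n1.ne'
    · exact n2.ne
    · exact n3.ne
    · exact n4.ne) ⟨0, n0⟩ ⟨2, n2⟩
  rw [Fin.sum_univ_five] at hx
  set t : ℚ := n 0 * x 0 ^ 2 + n 1 * x 1 ^ 2 with ht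
  have ht' : n 2 * x 2 ^ 2 + n 3 * x 3 ^ 2 + n 4 * x 4 ^ 2 = -t := by rw [ht]; linarith
  have a0 : 0 ≤ n 0 * x 0 ^ 2 := mul_nonneg n0.le (sq_nonneg _)
  have a1 : 0 ≤ n 1 * x 1 ^ 2 := mul_nonneg n1.le (sq_nonneg _)
  have a2 : n 2 * x 2 ^ 2 ≤ 0 := mul_nonpos_of_nonpos_of_nonneg n2.le (sq_nonneg _)
  have a3 : n 3 * x 3 ^ 2 ≤ 0 := mul_nonpos_of_nonpos_of_nonneg n3.le (sq_nonneg _)
  have a4 : n 4 * x 4 ^ 2 ≤ 0 := mul_nonpos_of_nonpos_of_nonneg n4.le (sq_nonneg _)
  have tpos : 0 < t := by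
    rcases lt_or_eq_of_le (show (0 : ℚ) ≤ t by rw [ht]; linarith) with h | h
    · exact h
    · exfalso
      apply hx0
      have z : ∀ c y : ℚ, c ≠ 0 → c * y ^ 2 = 0 → y = 0 := fun c y hc h =>
        pow_eq_zero_iff (two_ne_zero) |>.1 ((mul_eq_zero.1 h).resolve_left hc)
      have e0 : x 0 = 0 := z _ _ n0.ne' (by linarith)
      have e1 : x 1 = 0 := z _ _ n1.ne' (by linarith)
      have e2 : x 2 = 0 := z _ _ n2.ne (by linarith)
      have e3 : x 3 = 0 := z _ _ n3.ne (by linarith)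
      have e4 : x 4 = 0 := z _ _ n4.ne (by linarith)
      funext i
      fin_cases i
      · exact e0
      · exact e1
      · exact e2
      · exact e3
      · exact e4
  obtain ⟨w, w', hw, hw', h1, h2, h3⟩ := complete (fun i => ![-n 2, -n 3, -n 4] i) (by
    intro i; fin_cases i
    · simpa using n2
    · simpa using n3
    · simpa using n4) ![x 2, x 3, x 4]
  simp only [Matrix.cons_val_zero, Matrix.cons_val_one, Matrix.cons_val] at h1 h2 h3
  -- negative squares
  have negsq : ∀ y : Fin 3 → ℚ, y ≠ 0 → n 2 * y 0 ^ 2 + n 3 * y 1 ^ 2 + n 4 * y 2 ^ 2 < 0 := by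
    intro y hy
    have b2 : n 2 * y 0 ^ 2 ≤ 0 := mul_nonpos_of_nonpos_of_nonneg n2.le (sq_nonneg _)
    have b3 : n 3 * y 1 ^ 2 ≤ 0 := mul_nonpos_of_nonpos_of_nonneg n3.le (sq_nonneg _)
    have b4 : n 4 * y 2 ^ 2 ≤ 0 := mul_nonpos_of_nonpos_of_nonneg n4.le (sq_nonneg _)
    rcases lt_or_eq_of_le (show n 2 * y 0 ^ 2 + n 3 * y 1 ^ 2 + n 4 * y 2 ^ 2 ≤ 0 by linarith)
      with h | h
    · exact h
    · exfalso
      apply hy
      have z : ∀ c y : ℚ, c ≠ 0 → c * y ^ 2 = 0 → y = 0 := fun c y hc h =>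
        pow_eq_zero_iff (two_ne_zero) |>.1 ((mul_eq_zero.1 h).resolve_left hc)
      have e0 : y 0 = 0 := z _ _ n2.ne (by linarith)
      have e1 : y 1 = 0 := z _ _ n3.ne (by linarith)
      have e2 : y 2 = 0 := z _ _ n4.ne (by linarith)
      funext i
      fin_cases i
      · exact e0
      · exact e1
      · exact e2
  set f : ℚ := n 2 * w 0 ^ 2 + n 3 * w 1 ^ 2 + n 4 * w 2 ^ 2 with hf
  set g : ℚ := n 2 * w' 0 ^ 2 + n 3 * w' 1 ^ 2 + n 4 * w' 2 ^ 2 with hg
  have fneg : f < 0 := negsq w hw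
  have gneg : g < 0 := negsq w' hw'
  -- the new basis
  let c : Fin 5 → Fin 5 → ℚ := ![![x 0, x 1, 0, 0, 0], ![-(n 1 * x 1), n 0 * x 0, 0, 0, 0],
    ![0, 0, x 2, x 3, x 4], ![0, 0, w 0, w 1, w 2], ![0, 0, w' 0, w' 1, w' 2]]
  let s : Fin 5 → ℚ := ![t, n 0 * n 1 * t, -t, f, g]
  have hc : ∀ i j, B (vec b (c i)) (vec b (c j)) = if i = j then s i else 0 := by
    intro i j
    rw [form_vec B b ho, Fin.sum_univ_five]
    change n 0 * (c i 0 * c j 0) + n 1 * (c i 1 * c j 1) + n 2 * (c i 2 * c j 2) +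
      n 3 * (c i 3 * c j 3) + n 4 * (c i 4 * c j 4) = _
    fin_cases i <;> fin_cases j <;> simp [c, s] <;>
      first
        | ring1
        | linear_combination (-1 : ℚ) * ht
        | linear_combination (-(n 0 * n 1)) * ht
        | linear_combination ht'
        | linear_combination (-1 : ℚ) * h1
        | linear_combination (-1 : ℚ) * h2
        | linear_combination (-1 : ℚ) * h3
        | linear_combination (-1 : ℚ) * hf
        | linear_combination (-1 : ℚ) * hg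
  have hs : ∀ i, s i ≠ 0 := by
    intro i
    fin_cases i
    · exact tpos.ne'
    · exact (mul_pos (mul_pos n0 n1) tpos).ne'
    · exact (neg_neg_of_pos tpos).ne
    · exact fneg.ne
    · exact gneg.ne
  have hli : LinearIndependent ℚ (fun i => vec b (c i)) := by
    apply LinearMap.linearIndependent_of_isOrthoᵢ (B := B)
    · intro i j hij
      change B (vec b (c i)) (vec b (c j)) = 0
      rw [hc, if_neg hij]
    · intro i h
      have h' : B (vec b (c i)) (vec b (c i)) = 0 := h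
      rw [hc, if_pos rfl] at h'
      exact hs i h'
  let v : Module.Basis (Fin 5) ℚ T := basisOfLinearIndependentOfCardEqFinrank hli
    (by rw [Module.finrank_eq_card_basis b])
  have hv : ∀ i, v i = vec b (c i) := fun i => by
    simp [v]
  let u : Fin 5 → Fin 7 → ℚ := ![![1, t / 2, 0, 0, 0, 0, 0], ![0, 0, 1, n 0 * n 1 * t / 2, 0, 0, 0],
    ![1, -t / 2, 0, 0, 0, 0, 0], ![0, 0, 0, 0, 1, f / 2, 0], ![0, 0, 0, 0, 0, 0, 1]]
  refine ⟨-g, by linarith, embed_of_basis B (-g) v ?_ u ?_ ?_ ?_⟩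
  · intro i; rw [hv, hc, if_pos rfl]; exact hs i
  · intro i j hij; rw [hv, hv, hc, if_neg hij]
  · intro i j hij
    rw [target_apply]
    fin_cases i <;> fin_cases j <;> first | (exact absurd rfl hij) | (simp [u]; done) |
      (simp [u]; ring1)
  · intro i
    rw [hv, hc, if_pos rfl, target_apply]
    fin_cases i <;> simp [u, s] <;> ring1

theorem embed_two (B : LinearMap.BilinForm ℚ T) (b : Module.Basis (Fin 2) ℚ T)
    (ho : ∀ i j, i ≠ j → B (b i) (b j) = 0) (hn : ∀ i, B (b i) (b i) ≠ 0) :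
    ∃ a : ℚ, 0 < a ∧ EmbedsIn B a := by
  set n : Fin 2 → ℚ := fun i => B (b i) (b i) with hnn
  let u : Fin 2 → Fin 7 → ℚ := ![![1, n 0 / 2, 0, 0, 0, 0, 0], ![0, 0, 1, n 1 / 2, 0, 0, 0]]
  refine ⟨1, one_pos, embed_of_basis B 1 b hn u ho ?_ ?_⟩
  · intro i j hij
    rw [target_apply]
    fin_cases i <;> fin_cases j <;> first | (exact absurd rfl hij) | (simp [u]; done) |
      (simp [u]; ring1)
  · intro i
    change _ = n i
    rw [target_apply]
    fin_cases i <;> simp [u]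

theorem embed_three (B : LinearMap.BilinForm ℚ T) (b : Module.Basis (Fin 3) ℚ T)
    (ho : ∀ i j, i ≠ j → B (b i) (b j) = 0) (hn : ∀ i, B (b i) (b i) ≠ 0) :
    ∃ a : ℚ, 0 < a ∧ EmbedsIn B a := by
  set n : Fin 3 → ℚ := fun i => B (b i) (b i) with hnn
  let u : Fin 3 → Fin 7 → ℚ := ![![1, n 0 / 2, 0, 0, 0, 0, 0], ![0, 0, 1, n 1 / 2, 0, 0, 0],
    ![0, 0, 0, 0, 1, n 2 / 2, 0]]
  refine ⟨1, one_pos, embed_of_basis B 1 b hn u ho ?_ ?_⟩
  · intro i j hij
    rw [target_apply]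
    fin_cases i <;> fin_cases j <;> first | (exact absurd rfl hij) | (simp [u]; done) |
      (simp [u]; ring1)
  · intro i
    change _ = n i
    rw [target_apply]
    fin_cases i <;> simp [u]

theorem embed_four (B : LinearMap.BilinForm ℚ T) (b : Module.Basis (Fin 4) ℚ T)
    (ho : ∀ i j, i ≠ j → B (b i) (b j) = 0) (hn : ∀ i, B (b i) (b i) ≠ 0)
    (hneg : B (b 3) (b 3) < 0) : ∃ a : ℚ, 0 < a ∧ EmbedsIn B a := by
  set n : Fin 4 → ℚ := fun i => B (b i) (b i) with hnn
  let u : Fin 4 → Fin 7 → ℚ := ![![1, n 0 / 2, 0, 0, 0, 0, 0], ![0, 0, 1, n 1 / 2, 0, 0, 0],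
    ![0, 0, 0, 0, 1, n 2 / 2, 0], ![0, 0, 0, 0, 0, 0, 1]]
  refine ⟨-n 3, by change 0 < -(B (b 3) (b 3)); linarith, embed_of_basis B _ b hn u ho ?_ ?_⟩
  · intro i j hij
    rw [target_apply]
    fin_cases i <;> fin_cases j <;> first | (exact absurd rfl hij) | (simp [u]; done) |
      (simp [u]; ring1)
  · intro i
    change _ = n i
    rw [target_apply]
    fin_cases i <;> simp [u]

theorem embed_all (hM : Meyer) (B : LinearMap.BilinForm ℚ T) (m : ℕ) (hm : m ≤ 5)
    (h : HasSignature B m) : ∃ a : ℚ, 0 < a ∧ EmbedsIn B a := by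
  obtain ⟨h2, b, ho, hp⟩ := h
  have hn : ∀ i, B (b i) (b i) ≠ 0 := by
    intro i
    have := hp i
    split_ifs at this
    · exact this.ne'
    · exact this.ne
  interval_cases m
  · exact embed_two B b ho hn
  · exact embed_three B b ho hn
  · exact embed_four B b ho hn (by simpa using hp 3)
  · exact embed_five hM B b ho hp

end algebra


/-- Isometric bilinear spaces. -/
def Isometric {T T' : Type} [AddCommGroup T] [Module ℚ T] [AddCommGroup T'] [Module ℚ T']
    (B : LinearMap.BilinForm ℚ T) (B' : LinearMap.BilinForm ℚ T') : Prop :=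
  ∃ φ : T ≃ₗ[ℚ] T', ∀ x y, B' (φ x) (φ y) = B x y

theorem Isometric.embedsIn {T T' : Type} [AddCommGroup T] [Module ℚ T] [AddCommGroup T']
    [Module ℚ T'] {B : LinearMap.BilinForm ℚ T} {B' : LinearMap.BilinForm ℚ T'}
    (h : Isometric B B') {a : ℚ} (hB : EmbedsIn B a) : EmbedsIn B' a := by
  obtain ⟨φ, hφ⟩ := h
  obtain ⟨ψ, hψ, hψ'⟩ := hB
  refine ⟨ψ.comp φ.symm.toLinearMap, ?_, ?_⟩
  · intro x y hxy
    exact φ.symm.injective (hψ hxy)
  · intro x y
    change target a (ψ (φ.symm x)) (ψ (φ.symm y)) = B' x y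
    rw [hψ', ← hφ, φ.apply_symm_apply, φ.apply_symm_apply]

/-- A rational quadratic space of signature `(2, m - 2)`, `m ≥ 5`, is isotropic. -/
theorem isotropic {T : Type} [AddCommGroup T] [Module ℚ T] (hM : Meyer)
    (B : LinearMap.BilinForm ℚ T) (m : ℕ) (hm : 5 ≤ m) (h : HasSignature B m) :
    ∃ v : T, v ≠ 0 ∧ B v v = 0 := by
  obtain ⟨_, b, ho, hp⟩ := h
  let e : Fin 5 → Fin m := Fin.castLE hm
  have he : Function.Injective e := Fin.castLE_injective hm
  obtain ⟨x, hx0, hx⟩ := hM (fun i => B (b (e i)) (b (e i))) (by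
    intro i
    have := hp (e i)
    split_ifs at this
    · exact this.ne'
    · exact this.ne) ⟨0, by simpa [e] using hp (e 0)⟩ ⟨2, by simpa [e] using hp (e 2)⟩
  refine ⟨∑ i, x i • b (e i), ?_, ?_⟩
  · intro h0
    apply hx0
    have hli : LinearIndependent ℚ (fun i => b (e i)) := b.linearIndependent.comp e he
    exact funext (Fintype.linearIndependent_iff.1 hli x h0)
  · rw [map_sum]
    rw [← hx]
    refine Finset.sum_congr rfl fun i _ => ?_
    rw [map_sum, LinearMap.sum_apply, Finset.sum_eq_single i]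
    · simp only [map_smul, LinearMap.smul_apply, smul_eq_mul]; ring
    · intro j _ hij
      simp [ho (e j) (e i) (fun h => hij (he h))]
    · intro h; exact absurd (Finset.mem_univ i) h

end Pool.Agent.TH487.Emb
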